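import Mathlib
import Pool.Agent.H.MP_1dc069_an.A

namespace Pool.Agent.Results.MP_1dc069_an.Lineable

open Pool.Agent.H.MP_1dc069_an

theorem result (I : Set ℝ) (hI : I.OrdConnected) (hI' : I.Nontrivial) :
    ∃ M : Submodule ℝ (I → ℝ), Module.rank ℝ M = Cardinal.continuum ∧
      ∀ f ∈ M, ∃ F : ℝ → ℝ, (∀ x : I, F x = f x) ∧
        ContDiffOn ℝ ((⊤ : ℕ∞) : WithTop ℕ∞) F I ∧
        (f ≠ 0 → ∀ x ∈ I, (FormalMultilinearSeries.ofScalars ℝ
          fun n => iteratedDerivWithin n F I x / (n.factorial : ℝ)).radius = 0) := by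
  have hU : UniqueDiffOn ℝ I := by
    refine uniqueDiffOn_convex hI.convex ?_
    obtain ⟨a, ha, b, hb, hab⟩ := hI'
    wlog h : a < b generalizing a b
    · exact this b hb a ha hab.symm (lt_of_le_of_ne (not_lt.1 h) hab.symm)
    have h1 : Set.Ioo a b ⊆ interior I :=
      interior_maximal (Set.Ioo_subset_Icc_self.trans (hI.out ha hb)) isOpen_Ioo
    exact (Set.nonempty_Ioo.2 h).mono h1
  have key : ∀ g : BoundedContinuousFunction ℕ ℝ, ∀ x ∈ I, ∀ n,
      iteratedDerivWithin n (D (fun n => g n.unpair.1) 0) I x =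
        D (fun n => g n.unpair.1) n x := by
    intro g x hx n
    have hc : ∀ n : ℕ, |g n.unpair.1| ≤ ‖g‖ := fun n => g.norm_coe_le_norm _
    rw [iteratedDerivWithin_eq_iteratedDeriv hU
      ((smooth hc).of_le (by exact_mod_cast le_top)).contDiffAt hx, iter hc]
  have hinj : Function.Injective (L I) := by
    rw [injective_iff_map_eq_zero]
    intro g hg
    by_contra hne
    obtain ⟨x, hx⟩ := hI'.nonempty
    have h1 := L_radius g hne x
    have h2 : ∀ n, D (fun n => g n.unpair.1) n x = 0 := by
      intro n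
      rw [← key g x hx n, iteratedDerivWithin_congr (g := fun _ => 0)
        (fun y hy => congrFun hg ⟨y, hy⟩) hx]
      simp
    simp only [h2, zero_div] at h1
    have h3 : (FormalMultilinearSeries.ofScalars ℝ fun _ : ℕ => (0 : ℝ)).radius = ⊤ := by
      apply FormalMultilinearSeries.radius_eq_top_of_summable_norm
      intro r
      simp only [FormalMultilinearSeries.ofScalars_norm, norm_zero, zero_mul]
      exact summable_zero
    rw [h3] at h1
    exact ENNReal.top_ne_zero h1
  refine ⟨LinearMap.range (L I), by rw [rank_range_of_injective _ hinj, rank_bcf], ?_⟩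
  rintro _ ⟨g, rfl⟩
  refine ⟨D (fun n => g n.unpair.1) 0, fun x => rfl,
    (smooth fun n => g.norm_coe_le_norm _).contDiffOn, fun h x hx => ?_⟩
  simp only [key g x hx]
  exact L_radius g (fun h0 => h (by rw [h0, map_zero])) x

end Pool.Agent.Results.MP_1dc069_an.Lineable
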